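import Pool.Agent.H68.Kl4

namespace Pool.Agent.Results.MP_fcc599_al.Counter

open Pool.Agent.H68.Kl

theorem result : ∃ (B W : Type) (_ : Finite B) (_ : Group W) (M : CoxeterMatrix B)
    (cs : CoxeterSystem M W) (H : Type) (_ : Ring H) (_ : Algebra A H) (K : KL cs H)
    (y v₀ v₁ : W),
    MaxF cs (y * v₀) y v₀ 1 ∧ Red cs (y * v₀) v₁ ∧ K.Df v₁ ∧ v₁ ≠ 1 ∧
    ¬ MaxF cs (y * v₀ * v₁) (y * v₀) v₁ 1 ∧ (∃ n, K.IsA (y * v₀ * v₁) n ∧ K.IsA v₀ n) ∧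
    ¬ ∃ v₀₁ v₀₂ v₀₃ : W, v₀ = v₀₁ * v₀₂ * v₀₃ ∧ Red3 cs v₀₁ v₀₂ v₀₃ ∧
      MaxF cs (y * v₀ * v₁) (y * v₀₁ * v₀₂) (v₀₃ * v₁) 1 ∧
      K.MuNe (y * v₀) (y * v₀ * v₁ * v₀₂⁻¹) := by
  refine ⟨Bool × Bool, G × G, inferInstance, inferInstance, MM, cs, HH, inferInstance,
    inferInstance, KK, 1, (.a, .a), (.b, .b), ⟨⟨by decide, ?_, inFin _⟩, ?_⟩, ?_, df_bb,
    by decide, ?_, ⟨2, isA .ab .ab (by simp) (by simp), isA _ _ (by simp) (by simp)⟩, ?_⟩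
  · simp only [Red3, len_eq]; decide
  · rintro ⟨x', v', y', p, r, -, h1, h2, h3, h4, -, -, h5⟩
    unfold Red at h2 h4
    rw [← h1, cs.length_one] at h2
    rw [← h3, cs.length_one] at h4
    omega
  · simp only [Red, len_eq]; decide
  · rintro ⟨-, h⟩
    refine h ⟨1, (.ab, .ab), 1, (.a, .a), 1, ⟨by decide, ?_, inFin _⟩, by decide, ?_, by decide,
      ?_, by decide, ?_, ?_⟩ <;> simp only [Red, Red3, len_eq] <;> decide
  · rintro ⟨a, b, c, h1, h2, ⟨⟨h3, h4, -⟩, h5⟩, h6⟩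
    have hab : 1 * a * b = 1 := by
      by_contra hne
      refine h5 ⟨1, _, 1, 1 * a * b, 1, ⟨by simp, ?_, inFin _⟩, by simp, ?_, by simp, ?_, h3, h4,
        ?_⟩
      · simp [Red3]
      · simp [Red]
      · simp [Red]
      · have := cs.length_eq_zero_iff.not.2 hne
        omega
    have hb : b = 1 := by
      rw [one_mul] at hab
      unfold Red3 at h2
      have hc : c = (.a, .a) := by rw [h1, hab, one_mul]
      rw [← h1, hc] at h2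
      exact cs.length_eq_zero_iff.1 (by omega)
    rw [hb] at h6
    exact mu_aa h6

end Pool.Agent.Results.MP_fcc599_al.Counter
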